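import Pool.Agent.W96.CL.Stm
set_option autoImplicit false

/-! Intertwining: exchange of two neighbouring inhomogeneities. -/

namespace W96CL

namespace SwapAux

theorem uu_sq : uu ^ 2 = uu - 1 := by
  have h3 : Real.sqrt 3 * Real.sqrt 3 = 3 := Real.mul_self_sqrt (by norm_num)
  have h : uu ^ 2 = uu * uu := sq uu
  rw [h]
  apply Complex.ext
  · simp only [uu, Complex.mul_re, Complex.sub_re, Complex.one_re]
    nlinarith
  · simp only [uu, Complex.mul_im, Complex.sub_im, Complex.one_im]
    ring

theorem k0 (x z z' : ℂ) (hz : z ≠ 0) (hz' : z' ≠ 0) :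
    ph1 x z - tau x z = ph1 x z' - tau x z' := by
  have h := uu_sq
  unfold ph1 tau wT
  field_simp
  linear_combination (-z * x - z * x * z' ^ 2 + z ^ 2 * x * z' + x * z') * h

variable {A : Type} [Ring A] [Algebra ℂ A]

theorem key (e B D : A) (he : e * e = e) (hB : e * B * e = e * D) (hD : e * D = D * e)
    (r s F1 T1 F2 T2 f1 t1 f2 t2 k : ℂ)
    (h1 : f1 * f2 + T1 * T2 = F1 * F2 + t1 * t2)
    (h2 : r * (f1 * t2) = r * (F1 * T2) + s * (F1 * F2 + F1 * T2 + t1 * t2))
    (h3 : r * (t1 * f2) + s * (f1 * f2 + t1 * f2 + T1 * T2) = r * (T1 * F2))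
    (h4 : r * (t1 * t2) + s * (f1 * t2 + t1 * t2) = r * (T1 * T2) + s * (T1 * F2 + T1 * T2)) :
    (r • (1 : A) + s • e) * (k • ((f1 • (1 : A) + t1 • e) * B * (f2 • (1 : A) + t2 • e)) +
        (T1 * T2) • (k • B + (t1 * t2) • D)) =
      (k • ((F1 • (1 : A) + T1 • e) * B * (F2 • (1 : A) + T2 • e)) +
        (t1 * t2) • (k • B + (T1 * T2) • D)) * (r • (1 : A) + s • e) := by
  have heB : e * (e * B) = e * B := by rw [← mul_assoc, he]
  have heD : e * (e * D) = e * D := by rw [← mul_assoc, he]
  have hBe : B * e * e = B * e := by rw [mul_assoc, he]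
  have hBe' : e * (B * e) = e * D := by rw [← mul_assoc, hB]
  have heBee : e * B * e * e = e * D := by rw [mul_assoc (e * B), he, hB]
  have hDe : D * e = e * D := hD.symm
  have heDe : e * D * e = e * D := by rw [hD, mul_assoc, he]
  have heBe2 : e * (e * D) = e * D := heD
  simp only [mul_add, add_mul, smul_mul_assoc, mul_smul_comm, one_mul, mul_one, smul_add,
    smul_smul, ← mul_assoc, he, hB, hBe, heDe, hDe]
  have c1 := congrArg (fun t => (k * r * t) • B) h1
  have c2 := congrArg (fun t => (k * t) • (B * e)) h2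
  have c3 := congrArg (fun t => (k * t) • (e * B)) h3
  have c4 := congrArg (fun t => (k * t) • (e * D)) h4
  linear_combination (norm := module) c1 + c2 + c3 + c4

theorem wFT (x z z' : ℂ) (hz : z ≠ 0) (hz' : z' ≠ 0) :
    (wF (x / z') * wF (x * z') + wT (x / z) * wT (x * z) =
      wF (x / z) * wF (x * z) + wT (x / z') * wT (x * z')) ∧
    (wF (uu * z' / z) * (wF (x / z') * wT (x * z')) =
      wF (uu * z' / z) * (wF (x / z) * wT (x * z)) + wT (uu * z' / z) *
        (wF (x / z) * wF (x * z) + wF (x / z) * wT (x * z) + wT (x / z') * wT (x * z'))) ∧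
    (wF (uu * z' / z) * (wT (x / z') * wF (x * z')) + wT (uu * z' / z) *
        (wF (x / z') * wF (x * z') + wT (x / z') * wF (x * z') + wT (x / z) * wT (x * z)) =
      wF (uu * z' / z) * (wT (x / z) * wF (x * z))) ∧
    (wF (uu * z' / z) * (wT (x / z') * wT (x * z')) + wT (uu * z' / z) *
        (wF (x / z') * wT (x * z') + wT (x / z') * wT (x * z')) =
      wF (uu * z' / z) * (wT (x / z) * wT (x * z)) + wT (uu * z' / z) *
        (wT (x / z) * wF (x * z) + wT (x / z) * wT (x * z))) := by
  have h := uu_sq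
  unfold wF wT
  generalize uu = u at *
  refine ⟨?_, ?_, ?_, ?_⟩
  · field_simp
    grind
  · field_simp
    grind
  · field_simp
    grind
  · field_simp
    grind

theorem commXX {e : ℕ → A} {i : ℕ} (y : ℂ) {M : A} (h : Commute (e i) M) :
    Commute (XX e i y) M := by
  unfold XX
  exact ((Commute.one_left M).smul_left _).add_left (h.smul_left _)

theorem commXXXX {e : ℕ → A} {N : ℕ} (he : TL e N) {i j : ℕ} (h1 : i + 1 < j) (h2 : j + 1 < N)
    (y y' : ℂ) : Commute (XX e i y) (XX e j y') := by
  refine commXX y (Commute.symm (commXX y' ?_))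
  exact (he.cm i j h1 h2).symm

/-- The exchange, double row open at the left, no prefix. -/
theorem baseB (hc : S_comm) (hy : S_ybe) (e : ℕ → A) (N : ℕ) (he : TL e N) (x : ℂ) (i : ℕ)
    (L : List ℂ) (z z' : ℂ) (hz : z ≠ 0) (hz' : z' ≠ 0) (hN : i + L.length + 2 < N) :
    XX e (i + 1) (uu * z' / z) * BB e x i (z :: z' :: L) =
      BB e x i (z' :: z :: L) * XX e (i + 1) (uu * z' / z) := by
  have hcm : Commute (XX e i (uu * z' / z)) (BB e x (i + 2) L) :=
    commXX _ ((hc A e N he x i (i + 2) L (by omega)).1 (by omega))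
  have y1 := hy A e N he i (x / z') (x / z) (uu * z' / z) (by omega) (by field_simp)
  have y2 := hy A e N he i (uu * z' / z) (x * z') (x * z) (by omega) (by field_simp)
  simp only [BB]
  calc XX e (i + 1) (uu * z' / z) *
        (XX e i (x / z) * (XX e (i + 1) (x / z') * BB e x (i + 1 + 1) L *
          XX e (i + 1) (x * z')) * XX e i (x * z))
      = (XX e (i + 1) (uu * z' / z) * XX e i (x / z) * XX e (i + 1) (x / z')) *
          BB e x (i + 2) L * (XX e (i + 1) (x * z') * XX e i (x * z)) := by
        simp only [mul_assoc]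
    _ = (XX e i (x / z') * XX e (i + 1) (x / z) * XX e i (uu * z' / z)) *
          BB e x (i + 2) L * (XX e (i + 1) (x * z') * XX e i (x * z)) := by rw [y1]
    _ = (XX e i (x / z') * XX e (i + 1) (x / z)) * (XX e i (uu * z' / z) *
          BB e x (i + 2) L) * (XX e (i + 1) (x * z') * XX e i (x * z)) := by
        simp only [mul_assoc]
    _ = (XX e i (x / z') * XX e (i + 1) (x / z)) * (BB e x (i + 2) L * XX e i (uu * z' / z)) *
          (XX e (i + 1) (x * z') * XX e i (x * z)) := by rw [hcm.eq]
    _ = (XX e i (x / z') * XX e (i + 1) (x / z)) * BB e x (i + 2) L *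
          (XX e i (uu * z' / z) * XX e (i + 1) (x * z') * XX e i (x * z)) := by
        simp only [mul_assoc]
    _ = (XX e i (x / z') * XX e (i + 1) (x / z)) * BB e x (i + 2) L *
          (XX e (i + 1) (x * z) * XX e i (x * z') * XX e (i + 1) (uu * z' / z)) := by rw [y2]
    _ = XX e i (x / z') * (XX e (i + 1) (x / z) * BB e x (i + 1 + 1) L *
          XX e (i + 1) (x * z)) * XX e i (x * z') * XX e (i + 1) (uu * z' / z) := by
        simp only [mul_assoc]

/-- The exchange, double row, no prefix. -/
theorem baseD (hc : S_comm) (ht : S_trace) (e : ℕ → A) (N : ℕ) (he : TL e N) (x : ℂ) (i : ℕ)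
    (L : List ℂ) (z z' : ℂ) (hz : z ≠ 0) (hz' : z' ≠ 0) (hN : i + L.length + 2 ≤ N) :
    XX e i (uu * z' / z) * DD e x i (z :: z' :: L) =
      DD e x i (z' :: z :: L) * XX e i (uu * z' / z) := by
  have h1 := he.sq i (by omega)
  have h2 := ht A e N he x i L (by omega)
  have h3 : e i * DD e x (i + 2) L = DD e x (i + 2) L * e i :=
    ((hc A e N he x i (i + 2) L (by omega)).2 (by omega)).eq
  obtain ⟨w1, w2, w3, w4⟩ := wFT x z z' hz hz'
  have hk := key (e i) (BB e x (i + 1) L) (DD e x (i + 2) L) h1 h2 h3 (wF (uu * z' / z))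
    (wT (uu * z' / z)) (wF (x / z)) (wT (x / z)) (wF (x * z)) (wT (x * z)) (wF (x / z'))
    (wT (x / z')) (wF (x * z')) (wT (x * z')) (ph1 x z - tau x z) w1 w2 w3 w4
  simp only [DD, BB, XX] at hk ⊢
  rw [← k0 x z z' hz hz']
  exact hk

end SwapAux

open SwapAux in
theorem cl_swap (hc : S_comm) (ht : S_trace) (hy : S_ybe) : S_swap := by
  intro A _ _ e N he x i P L z z' hz hz'
  induction P generalizing i with
  | nil =>
    refine ⟨fun h => ?_, fun h => ?_⟩
    · simp only [List.length_nil, add_zero, List.nil_append] at h ⊢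
      exact baseB hc hy e N he x i L z z' hz hz' (by omega)
    · simp only [List.length_nil, add_zero, List.nil_append] at h ⊢
      exact baseD hc ht e N he x i L z z' hz hz' (by omega)
  | cons w P ih =>
    refine ⟨fun h => ?_, fun h => ?_⟩
    · simp only [List.length_cons, List.cons_append] at h ⊢
      have h1 := (ih (i + 1)).1 (by omega)
      have e1 : i + 1 + (P.length + 1) = i + 1 + 1 + P.length := by omega
      rw [e1]
      have c1 : ∀ y, Commute (XX e i y) (XX e (i + 1 + 1 + P.length) (uu * z' / z)) :=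
        fun y => commXXXX he (by omega) (by omega) _ _
      simp only [BB]
      calc XX e (i + 1 + 1 + P.length) (uu * z' / z) * (XX e i (x / w) *
            BB e x (i + 1) (P ++ z :: z' :: L) * XX e i (x * w))
          = (XX e (i + 1 + 1 + P.length) (uu * z' / z) * XX e i (x / w)) *
            BB e x (i + 1) (P ++ z :: z' :: L) * XX e i (x * w) := by simp only [mul_assoc]
        _ = (XX e i (x / w) * XX e (i + 1 + 1 + P.length) (uu * z' / z)) *
            BB e x (i + 1) (P ++ z :: z' :: L) * XX e i (x * w) := by rw [(c1 _).eq]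
        _ = XX e i (x / w) * (XX e (i + 1 + 1 + P.length) (uu * z' / z) *
            BB e x (i + 1) (P ++ z :: z' :: L)) * XX e i (x * w) := by simp only [mul_assoc]
        _ = XX e i (x / w) * (BB e x (i + 1) (P ++ z' :: z :: L) *
            XX e (i + 1 + 1 + P.length) (uu * z' / z)) * XX e i (x * w) := by rw [h1]
        _ = XX e i (x / w) * BB e x (i + 1) (P ++ z' :: z :: L) *
            (XX e (i + 1 + 1 + P.length) (uu * z' / z) * XX e i (x * w)) := by
          simp only [mul_assoc]
        _ = XX e i (x / w) * BB e x (i + 1) (P ++ z' :: z :: L) *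
            (XX e i (x * w) * XX e (i + 1 + 1 + P.length) (uu * z' / z)) := by rw [(c1 _).eq]
        _ = XX e i (x / w) * BB e x (i + 1) (P ++ z' :: z :: L) *
            XX e i (x * w) * XX e (i + 1 + 1 + P.length) (uu * z' / z) := by
          simp only [mul_assoc]
    · simp only [List.length_cons, List.cons_append] at h ⊢
      have h1 := (ih i).1 (by omega)
      have h2 := (ih (i + 1)).2 (by omega)
      have e1 : i + (P.length + 1) = i + 1 + P.length := by omega
      rw [e1]
      simp only [DD]
      rw [mul_add, add_mul, mul_smul_comm, mul_smul_comm, smul_mul_assoc, smul_mul_assoc, h1, h2]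

end W96CL
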